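import Mathlib
import Pool.Agent.Run7.h756.CC.PowC

/-!
# Prime quadruplets between consecutive fifth powers: circles containing all but `C` members of EVERY set

For every `R` there are `C` and `B` such that for all large `N_1, …, N_R` (of very different sizes), every finite
set `V` and any `R` injective maps `f_i` of `V` into `[0, N_i ^ 4 / (log N_i) ^ B]` such that `f_i(V)` misses a
class modulo each prime `p ≤ B`: all members of `V` with at most `C` exceptions can be arranged in `m R` disjoint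
circles (`m 1 = 3`, `m 2 = 10`, `m 3 = 36`) such that for any four successive members `a, b, c, d` of a circle and
each `i`: for at least `N_i / (log N_i) ^ B` of the `n ≤ N_i` there are at least `N_i ^ 4 / (log N_i) ^ B` numbers
`x` such that `x + f_i(a)`, `x + f_i(b)`, `x + f_i(c)`, `x + f_i(d)` are primes between `n ^ 5` and `(n + 1) ^ 5`.
-/

set_option autoImplicit false

namespace Pool.Agent.Results.MP_c03ca8_nt.CirclesBetweenFifthPowers

open Finset Filter
open Pool.Agent.Run7.h756.CC (pow_circles)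

/-- the number of the `x` such that `n ^ 5 < x` and `x + h` is a prime smaller than `(n + 1) ^ 5` for all `h` in
`F`; for `F = {0, 2, 6, 8}` this is the number of the prime quadruplets between `n ^ 5` and `(n + 1) ^ 5` -/
def tuples (F : Finset ℕ) (n : ℕ) : ℕ := ((Ioo (n ^ 5) ((n + 1) ^ 5)).filter (fun x : ℕ =>
  ∀ h ∈ F, (x + h).Prime ∧ x + h < (n + 1) ^ 5)).card

/-- `m 0 = 1` and `m (R + 1) = ⌊18 * m R / 5⌋`: the numbers `1, 3, 10, 36, 129, ...` -/
def m : ℕ → ℕ
  | 0 => 1
  | R + 1 => 18 * m R / 5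

theorem m_eq (R : ℕ) : m R = Pool.Agent.R493.SI.mR R := by
  induction R with
  | zero => rfl
  | succ R ih =>
    show 18 * m R / 5 = 18 * Pool.Agent.R493.SI.mR R / 5
    rw [ih]

/-- All members of `V` with at most `C` exceptions are arranged in `D` disjoint circles (lists without
repetitions, read cyclically) such that any four successive members of a circle (all members, if there are fewer
than four) form a set with the property `G`. -/
def Circles (V : Finset ℕ) (D C : ℕ) (G : Finset ℕ → Prop) : Prop :=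
  ∃ e : Fin D → List ℕ, (∀ i, (e i).Nodup) ∧ (∀ i j, i ≠ j → List.Disjoint (e i) (e j)) ∧
    (∀ i, ∀ v ∈ e i, v ∈ V) ∧ (V.filter (fun v => ∀ i, v ∉ e i)).card ≤ C ∧
    ∀ i j, e i ≠ [] → G ((((e i).rotate j).take 4).toFinset)

/-- **Circles of quadruplets between consecutive fifth powers.** -/
theorem result (R : ℕ) : ∃ C B N₀ : ℕ, ∀ N : Fin R → ℕ, (∀ i, N₀ ≤ N i) →
    ∀ (V : Finset ℕ) (f : Fin R → ℕ → ℕ), (∀ i, Set.InjOn (f i) V) →
    (∀ i, ∀ v ∈ V, (f i v : ℝ) ≤ (N i : ℝ) ^ 4 / (Real.log (N i)) ^ B) →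
    (∀ i, ∀ p : ℕ, p.Prime → p ≤ B → ∃ c : ℕ, ∀ v ∈ V, ¬ f i v ≡ c [MOD p]) →
    Circles V (m R) C (fun w => ∀ i, (N i : ℝ) / (Real.log (N i)) ^ B ≤
      (((Icc 1 (N i)).filter (fun n => (N i : ℝ) ^ 4 / (Real.log (N i)) ^ B ≤
        (tuples (w.image (f i)) n : ℝ))).card : ℝ)) := by
  classical
  obtain ⟨C, B, h⟩ := pow_circles R 4 (by norm_num)
  obtain ⟨N₀, h⟩ := h (fun _ => 5) (fun _ => by norm_num)
  refine ⟨C, B, N₀, fun N hN V f hf hle hloc => ?_⟩
  obtain ⟨e, he1, he2, he3, he4, he5⟩ := h N hN V f hf hle hloc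
  rw [m_eq]
  exact ⟨e, he1, he2, he3, he4, fun i j hne ρ => he5 i j hne ρ⟩

end Pool.Agent.Results.MP_c03ca8_nt.CirclesBetweenFifthPowers
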