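import Mathlib
import Pool.Agent.Run7.h462.LW.All

/-!
# Quadruplets and `k`-tuples in dense sets of primes between consecutive fifth powers, almost all shapes up to a constant factor

`T` is any set of primes (or of integers without prime factors `≤ n^κ`) between `n^5` and `(n+1)^5` with at least `δ n^4 / log n` elements,
`n` is any large integer. For a positive proportion of ALL shapes, that is, tuples `h` of `k` distinct integers in `[0, H)`, already for
`H = B log n`, the number of the translates `y + h ⊆ T` is at least `1 - η` times the number `singular h * #T^k / Y^(k-1)` expected for this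
shape, `Y = (n+1)^5 - n^5`. For almost all `n` this holds with `T` = all primes in between and the Hardy-Littlewood number.

Proof: power mean inequality over all windows of length `H` (first moment), pointwise upper bound by the sieve of dimension `k`, average and second
moment of the singular series over ALL tuples in `[0, H)^k`, independence of the cut `z`, Cauchy-Schwarz.
-/

set_option autoImplicit false

namespace Pool.Agent.Results.MP_c03ca8_nt.DenseSubsetsShortWindows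

open Finset

/-- the tuples of `k` distinct integers `0 ≤ h_i < H` -/
def tuples (k H : ℕ) : Finset (Fin k → ℕ) := (Fintype.piFinset (fun _ : Fin k => range H)).filter Function.Injective

/-- the number of the residue classes modulo `p` that contain some `h_i` -/
def classes {k : ℕ} (h : Fin k → ℕ) (p : ℕ) : ℕ := #(univ.image (fun i => h i % p))

/-- the singular series of the tuple, truncated at `z` -/
noncomputable def singular {k : ℕ} (h : Fin k → ℕ) (z : ℕ) : ℝ :=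
  ∏ p ∈ (Icc 1 z).filter Nat.Prime, (1 - (classes h p : ℝ) / p) / (1 - 1 / (p : ℝ)) ^ k

/-- the number of the `y` with all `y + h_i` in `T`, for sets `T` of integers below `(n+1)^5` -/
def translates {k : ℕ} (n : ℕ) (T : Finset ℕ) (h : Fin k → ℕ) : ℕ :=
  #((range ((n + 1) ^ 5)).filter (fun y => ∀ i, y + h i ∈ T))

/-- the primes between `n^5` and `(n+1)^5` -/
def primesBetween (n : ℕ) : Finset ℕ := (Ioo (n ^ 5) ((n + 1) ^ 5)).filter Nat.Prime

lemma singular_eq {k : ℕ} (h : Fin k → ℕ) (z : ℕ) : Run7.h462.KT.gk (Polynomial.X : Polynomial ℤ) h z = singular h z := by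
  rw [Run7.h462.KT.gk_eq_prod]
  unfold singular classes
  have e : Pool.Agent.H373R2.T7.pz z = (Icc 1 z).filter Nat.Prime := by
    ext p
    rw [Pool.Agent.H373R2.T7.mem_pz, mem_filter, mem_Icc]
    constructor
    · rintro ⟨h1, h2⟩
      exact ⟨⟨h2.one_lt.le, h1⟩, h2⟩
    · rintro ⟨⟨_, h1⟩, h2⟩
      exact ⟨h1, h2⟩
  rw [e]
  apply prod_congr rfl
  intro p hp
  rw [Run7.h462.KT.rk_X h (mem_filter.1 hp).2]

/-- (1) for every large `n` and every dense set `T`; (2) for almost all `n` and all primes between `n^5` and `(n+1)^5` -/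
theorem result (k : ℕ) (hk : 1 ≤ k) (η : ℝ) (hη : 0 < η) (hη1 : η ≤ 1) :
    (∀ κ δ : ℝ, 0 < κ → 0 < δ → ∃ c B : ℝ, 0 < c ∧ 0 < B ∧ ∃ N₀ : ℕ, ∀ n : ℕ, N₀ ≤ n →
      ∀ T ⊆ Ioo (n ^ 5) ((n + 1) ^ 5), (∀ t ∈ T, ∀ p : ℕ, p.Prime → (p : ℝ) ≤ (n : ℝ) ^ κ → ¬ p ∣ t) →
      δ * ((n : ℝ) ^ 4 / Real.log n) ≤ #T → ∀ H : ℕ, B * Real.log n ≤ H → (H : ℝ) ≤ c * (n : ℝ) ^ 4 →
      ∃ G ⊆ tuples k H, c * (H : ℝ) ^ k ≤ #G ∧ ∀ h ∈ G, ∀ z : ℕ, (5 * Real.log n) ^ 2 ≤ z → c ≤ singular h z ∧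
        (1 - η) * singular h z * ((#T : ℝ) ^ k / (((n + 1) ^ 5 - n ^ 5 : ℕ) : ℝ) ^ (k - 1)) ≤ translates n T h) ∧
    (∃ c B : ℝ, 0 < c ∧ 0 < B ∧ ∀ U : ℕ, ∃ X₀ : ℕ, ∀ X : ℕ, X₀ ≤ X → ∃ E : Finset ℕ, (#E : ℝ) ≤ X / Real.log X ^ U ∧
      ∀ n : ℕ, n ≤ X → n ∉ E → ∀ H : ℕ, B * Real.log n ≤ H → (H : ℝ) ≤ c * (n : ℝ) ^ 4 →
      ∃ G ⊆ tuples k H, c * (H : ℝ) ^ k ≤ #G ∧ ∀ h ∈ G, ∀ z : ℕ, (5 * Real.log n) ^ 2 ≤ z → c ≤ singular h z ∧
        (1 - η) * singular h z * (5 * (n : ℝ) ^ 4 / (5 * Real.log n) ^ k) ≤ translates n (primesBetween n) h) := by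
  have e5 : (((4 : ℕ) : ℝ) + 1) = 5 := by norm_num
  constructor
  · intro κ δ hκ hδ
    obtain ⟨c, B, hc, hB, N₀, h⟩ := Run7.h462.LW.allA 4 k (by norm_num) hk κ δ η hκ hδ hη hη1
    refine ⟨c, B, hc, hB, N₀, fun n hn T hT hR hd H hH1 hH2 => ?_⟩
    obtain ⟨G, hG1, hG2, hG3⟩ := h n hn T hT hR hd H hH1 hH2
    refine ⟨G, hG1, hG2, fun g hg z hz => ?_⟩
    have h3 := hG3 g hg z (by rw [e5]; exact hz)
    rw [singular_eq] at h3
    exact h3
  · obtain ⟨c, B, hc, hB, h⟩ := Run7.h462.LW.allPrimesA 4 k (by norm_num) hk η hη hη1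
    refine ⟨c, B, hc, hB, fun U => ?_⟩
    obtain ⟨X₀, h⟩ := h U
    refine ⟨X₀, fun X hX => ?_⟩
    obtain ⟨E, hE, h2⟩ := h X hX
    refine ⟨E, hE, fun n hnX hnE H hH1 hH2 => ?_⟩
    obtain ⟨G, hG1, hG2, hG3⟩ := h2 n hnX hnE H hH1 hH2
    refine ⟨G, hG1, hG2, fun g hg z hz => ?_⟩
    have h3 := hG3 g hg z (by rw [e5]; exact hz)
    rw [singular_eq, e5] at h3
    exact h3

end Pool.Agent.Results.MP_c03ca8_nt.DenseSubsetsShortWindows
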