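import Mathlib
import Pool.Agent.Run7.h337.MK.Tuples
import Pool.Agent.Run7.h880.MK.Maj1
import Pool.Agent.Run7.h794.MK.SiaAll

/-!
# Prime tuples between almost all pairs of consecutive fifth powers, with shifts from r flat families
-/

set_option autoImplicit false

namespace Pool.Agent.Results.MP_c03ca8_nt.TuplesBetweenFifthPowers

open Finset
open Pool.Agent.N384.MQ (Flat)
open Run7.h337.MK (tupleCount primesBetween)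

/-- The expected number of the (i_1, .., i_r) with m + kappa_j y_j(i_j) prime for all j. -/
noncomputable def expected {r : ℕ} {ι : Fin r → Type} (n : ℕ) (κ : Fin r → ℤ) (s : ∀ j, Finset (ι j)) : ℝ :=
  ∏ j, ((κ j).natAbs / (Nat.totient (κ j).natAbs : ℝ) * ((s j).card / (5 * Real.log n)))

theorem result (r T U : ℕ) (ε : ℝ) (hε : 0 < ε) (hε1 : ε ≤ 1) :
    ∃ V C D X₀ : ℕ, ∀ X : ℕ, X₀ ≤ X →
    ∃ E : Finset ℕ, (E.card : ℝ) ≤ X / Real.log X ^ U ∧ ∀ n : ℕ, 1 ≤ n → n ≤ X → n ∉ E →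
    ∀ (q : Fin r → ℕ) [∀ j, NeZero (q j)],
    (∀ j, (X : ℝ) ^ (5 / 3 : ℝ) * Real.log X ^ C ≤ q j ∧ (q j : ℝ) * Real.log X ^ D ≤ (n : ℝ) ^ 4) →
    ∀ {ι : Fin r → Type} (s : ∀ j, Finset (ι j)) (y : ∀ j, ι j → ZMod (q j)),
    (∀ j, (s j).Nonempty ∧ Flat (q j) (1 / Real.log X ^ V) (s j) (y j)) →
    ∀ κ : Fin r → ℤ, (∀ j, κ j ≠ 0 ∧ ((κ j).natAbs : ℝ) ≤ Real.log X ^ T) →
      (∃ F : Finset ℕ, (F.card : ℝ) ≤ (n : ℝ) ^ 4 / Real.log X ^ U ∧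
        ∀ m ∈ Ioo (n ^ 5) ((n + 1) ^ 5), m ∉ F → (∀ j, IsCoprime (m : ℤ) (κ j)) →
        |(tupleCount (n ^ 5) ((n + 1) ^ 5) κ y s {m} : ℝ) - expected n κ s| ≤ ε * expected n κ s) ∧
      (∀ P ⊆ Ioo (n ^ 5) ((n + 1) ^ 5), (∀ m ∈ P, ∀ j, IsCoprime (m : ℤ) (κ j)) →
        (n : ℝ) ^ 4 / Real.log X ^ T ≤ P.card →
        |(tupleCount (n ^ 5) ((n + 1) ^ 5) κ y s P : ℝ) - P.card * expected n κ s| ≤ ε * (P.card * expected n κ s)) ∧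
      |(tupleCount (n ^ 5) ((n + 1) ^ 5) κ y s (primesBetween (n ^ 5) ((n + 1) ^ 5)) : ℝ) -
          (n : ℝ) ^ 4 / Real.log n * expected n κ s| ≤ ε * ((n : ℝ) ^ 4 / Real.log n * expected n κ s) := by
  obtain ⟨V, C, D, X₀, h⟩ := Run7.h337.MK.pow_tuples
    (Pool.Agent.Run7.h880.MK.t_MAJ1 Pool.Agent.Run7.h794.MK.sia_all) 4 (by norm_num) r T U ε hε hε1
  refine ⟨V, C, D, X₀, fun X hX => ?_⟩
  obtain ⟨E, hE, h2⟩ := h X hX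
  refine ⟨E, hE, fun n hn1 hnX hnE q _ hq ι s y hsy κ hκ => ?_⟩
  have e1 : (((4 + 1 : ℕ) : ℝ) / 3) = 5 / 3 := by norm_num
  have e2 : (((4 : ℕ) : ℝ) + 1) = 5 := by norm_num
  have h3 := h2 n hn1 hnX hnE q (by rw [e1]; exact hq) s y hsy κ hκ
  rw [e2] at h3
  exact h3

end Pool.Agent.Results.MP_c03ca8_nt.TuplesBetweenFifthPowers
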